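import Pool.Agent.H614.KL.Uni

/-!
# Negative Kodaira dimension and uniruledness for images of degree at most `2 m + 1`

Let `V` be any smooth projective variety of dimension `n`, `V ⇢ Y` a generically finite rational map onto a
variety `Y` in projective space, and `H` the pull-back of the hyperplane class. Suppose that `Y` is cut
out (as a set) by forms of degree at most `m + 1` and is not covered by lines. Let `W` be any smooth
projective variety with a dominant rational map `V ⇢ W` of degree at most `2 m + 1`; nothing is assumed
about the map (it need not be a quotient by a group, and its ramification is arbitrary) or about `W`.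

If `V ⇢ Y` does not factor through other varieties (for instance, if its degree is a prime number), and
`H⁰(V, K_V - m H) ≠ 0`, then `p_g(W) > 0` or `V ⇢ W` factors through `V ⇢ Y`. If, moreover, `Y` is
uniruled, then these are equivalent: `p_g(W) = 0`; `κ(W) = -∞`; `K_W` is not pseudo-effective; `W` is
uniruled; `V ⇢ W` factors through `V ⇢ Y`.

In general there may be intermediate varieties `V ⇢ Z ⇢ Y`, which correspond to the fields `F` between the
function fields `K` of `V` and `E` of `Y`. Then the theorem holds for the maps `V ⇢ W` of degree at most
`r`, if for all `Z ≠ Y`, that is, `F ≠ E`, there is a section of `K_V - m H` whose trace to `Z` is not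
zero, for some `m` such that `r ≤ [K : F] (2 m + 1)` and `Y` is cut out by forms of degree at most `m + 1`.

Example: let `Y` be a smooth Fano variety, embedded by `- K_Y`, which is cut out by quadrics (for instance, a
del Pezzo surface of degree at least `4`), and `V → Y` the cyclic covering of prime degree `p` branched
along a smooth member of `|- p a K_Y|`, `(p - 1) a ≥ 2`. Then `Y` is uniruled and not covered by lines, and
`K_V = m H` for `m = (p - 1) a - 1`: an image `W` of `V` of degree at most `2 (p - 1) a - 1` has
`p_g(W) > 0`, or it is uniruled and `V ⇢ W` factors through `V → Y`. (These remarks are not part of the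
Lean statement.)

For degrees at most `m + 1`, and `Y` an arbitrary uniruled variety, this is
`MP_e06174_ag.ImagesOverUniruled`. Here the range for the degree is doubled, if `Y` is cut out by forms of
degree at most `m + 1` and is not covered by lines.

Proof: let `F` be the field generated by `E` and the function field `L` of `W`. If `F = E` then `L ⊆ E`.
Otherwise let `ω` be a form as above. If `p_g(W) = 0`, then the traces of the forms `A(x) ω` from `V` to `W`
vanish, for all forms `A` of degree `m`; hence the conjugates `x_1, …, x_s` over `L` of the generic point
`x` of `Y` satisfy the Cayley–Bacharach condition for the forms of degree `m`. Since `s ≤ 2 m + 1`, they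
are at least `m + 2` points on a line. The forms of degree at most `m + 1` which vanish on `Y` vanish on
this line. So the line is in `Y`, and these lines cover `Y`.

The function-field language of the starting repository is used. A canonical form (`IsPluri 1`) on a
variety of dimension `n` is a function of `n` rational vector fields; it is regular at the prime divisor
`P` (`Place`, `Divisorial`, `RegAt`) if its value on vector fields which are regular at `P` is regular at
`P`. `KodGe ℂ L n (fun _ => False) 0` says that `κ(W) ≥ 0`, `Psef ℂ L n (fun _ => False)` that `K_W` is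
pseudo-effective (`Pool/Agent/W602/GT`), `IsUniruled ℂ L n` that `W` is uniruled
(`Pool/Agent/W619/PQ/Defs.lean`).
-/

set_option autoImplicit false
set_option linter.overlappingInstances false

open FF Pool.Agent.W602.GT
open Pool.Agent.W619.PQ (IsUniruled)

namespace Pool.Agent.Results.MP_e06174_ag.ImagesInDoubleRange

section

variable {K : Type} [Field K] [Algebra ℂ K] {n N : ℕ}

/-- `x` is the generic point of `Y`, embedded in projective space with `N` homogeneous coordinates
(one of them is normalised to `1`); the function field `ℂ(x)` of `Y` is a subfield of the function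
field `K` of `V`, of finite index, and `n` is the dimension of `V` and `Y`. -/
structure IsBase (n : ℕ) (x : Fin N → K) : Prop where
  ess : Algebra.EssFiniteType ℂ K
  dim : Algebra.trdeg ℂ K = n
  one : ∃ j, x j = 1
  fin : FiniteDimensional (IntermediateField.adjoin ℂ (Set.range x)) K

/-- `Y` is covered by lines: for some variety `B`, with function field `M`, there is a family over `B`
of lines in projective space, the lines through the points `a` and `b` over `M`, such that the
generic point `a + T b` of the total space of the family is mapped to the generic point `x` of `Y`,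
that is, exactly the equations of `Y` vanish at `a + T b`. -/
def CoveredByLines (x : Fin N → K) : Prop :=
  ∃ (M : Type) (_ : Field M) (_ : Algebra ℂ M) (a b : Fin N → M),
    Algebra.EssFiniteType ℂ M ∧ LinearIndependent M ![a, b] ∧
    ∀ F : MvPolynomial (Fin N) ℂ, MvPolynomial.aeval x F = 0 ↔
      MvPolynomial.aeval (fun j => Polynomial.C (a j) + Polynomial.X * Polynomial.C (b j)) F = 0

/-- `Y` is cut out, as a set, by forms of degree at most `e`: if all forms of degree at most `e` which
vanish on `Y` vanish at a point `q` with coordinates in an extension `κ` of `ℂ`, then `q` is a point of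
`Y`. -/
def CutOut (e : ℕ) (x : Fin N → K) : Prop :=
  ∀ (κ : Type) [Field κ] [Algebra ℂ κ] (q : Fin N → κ),
    (∀ (i : ℕ) (F : MvPolynomial (Fin N) ℂ), i ≤ e → F.IsHomogeneous i →
      MvPolynomial.aeval x F = 0 → MvPolynomial.aeval q F = 0) →
    ∀ (i : ℕ) (F : MvPolynomial (Fin N) ℂ), F.IsHomogeneous i →
      MvPolynomial.aeval x F = 0 → MvPolynomial.aeval q F = 0

/-- `ω` is a section of `K_V - m H`: a canonical form on `V` such that `A(x) ω` is regular at all prime
divisors, for all monomials, hence for all forms `A` of degree `m`. -/
def IsSection (m : ℕ) (x : Fin N → K) (ω : (Fin n → Derivation ℂ K K) → K) : Prop :=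
  IsPluri 1 ω ∧ ∀ (f : Fin m → Fin N) (P : Place ℂ K), Divisorial n P →
    RegAt P (fun D => (∏ k, x (f k)) * ω D)

/-- The trace of the form `ω` to the variety with the function field `F` is not zero. The value of the
trace of `ω` on vector fields `D i` of `F` is the trace of the value of `ω` on the extensions `D' i` of
the `D i` to `K`. -/
def TraceNe (ω : (Fin n → Derivation ℂ K K) → K) (F : IntermediateField ℂ K) : Prop :=
  ∃ (D : Fin n → Derivation ℂ F F) (D' : Fin n → Derivation ℂ K K),
    (∀ i f, D' i (algebraMap F K f) = algebraMap F K (D i f)) ∧
    Algebra.trace F K (ω D') ≠ 0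

/-- For all fields `F` with `ℂ(x) < F ≤ K` there is a section of `K_V - m H` with nonzero trace to `F`,
for some `m` such that `r ≤ [K : F] (2 m + 1)` and `Y` is cut out by forms of degree at most `m + 1`. -/
def Positive (n : ℕ) (x : Fin N → K) (r : ℕ) : Prop :=
  ∀ F : IntermediateField ℂ K, IntermediateField.adjoin ℂ (Set.range x) < F →
    ∃ m : ℕ, r ≤ Module.finrank F K * (2 * m + 1) ∧ CutOut (m + 1) x ∧
      ∃ ω : (Fin n → Derivation ℂ K K) → K, IsSection m x ω ∧ TraceNe ω F

/-- The map `V ⇢ W` factors through `V ⇢ Y`: all elements of the function field `L` of `W` are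
rational functions of `x`. -/
def FactorsThrough (L : Type) [Field L] [Algebra L K] (x : Fin N → K) : Prop :=
  ∀ f : L, algebraMap L K f ∈ IntermediateField.adjoin ℂ (Set.range x)

end

/-- The geometric genus is zero: the only canonical form which is regular at all prime divisors is
`0`. -/
def GenusZero (L : Type) [Field L] [Algebra ℂ L] (n : ℕ) : Prop :=
  ∀ ω : (Fin n → Derivation ℂ L L) → L, IsPluri 1 ω →
    (∀ P : Place ℂ L, Divisorial n P → RegAt P ω) → ∀ D, ω D = 0

/-- **Images of degree at most `2 m + 1`.** Let `V ⇢ Y` be a generically finite rational map of varieties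
of dimension `n`, with generic point `x` of `Y`, `Y` not covered by lines, and let `V ⇢ W` be a dominant
rational map of degree `r = [K : L]` to a smooth projective variety with function field `L`.
(1) If `Positive` holds for `r`, then `p_g(W) > 0` or `V ⇢ W` factors through `V ⇢ Y`. (2) If, moreover,
`Y` is uniruled, then `p_g(W) = 0` if and only if `κ(W) = -∞`, if and only if `K_W` is not
pseudo-effective, if and only if `W` is uniruled, if and only if `V ⇢ W` factors through `V ⇢ Y`.
(3) If the degree of `V ⇢ Y` is a prime number, `K_V - m H` has a nonzero section, `r ≤ 2 m + 1`, and `Y`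
is cut out by forms of degree at most `m + 1`, then `Positive` holds for `r`. -/
theorem result {n N : ℕ} {K : Type} [Field K] [Algebra ℂ K] {x : Fin N → K} (hx : IsBase n x)
    (hl : ¬ CoveredByLines x) (L : Type) [Field L] [Algebra ℂ L] [Algebra L K]
    [IsScalarTower ℂ L K] [FiniteDimensional L K] :
    (Positive n x (Module.finrank L K) → ¬ GenusZero L n ∨ FactorsThrough L x) ∧
    (Positive n x (Module.finrank L K) →
      IsUniruled ℂ (IntermediateField.adjoin ℂ (Set.range x)) n →
      [GenusZero L n, ¬ KodGe ℂ L n (fun _ => False) 0, ¬ Psef ℂ L n (fun _ => False),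
        IsUniruled ℂ L n, FactorsThrough L x].TFAE) ∧
    ((Module.finrank (IntermediateField.adjoin ℂ (Set.range x)) K).Prime →
      ∀ (m : ℕ) (ω : (Fin n → Derivation ℂ K K) → K), IsSection m x ω → (∃ D, ω D ≠ 0) →
        CutOut (m + 1) x → Module.finrank L K ≤ 2 * m + 1 →
        Positive n x (Module.finrank L K)) := by
  have hb : Pool.Agent.R882.Over.IsBase n x := ⟨hx.ess, hx.dim, hx.one, hx.fin⟩
  refine ⟨fun hp => ?_, fun hp hY => ?_, fun hprime m ω hω hne hcut hs => ?_⟩
  · by_cases hf : FactorsThrough L x
    · exact Or.inr hf
    · exact Or.inl (Pool.Agent.H614.KL.genus_pos hb hl hp hf)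
  · exact Pool.Agent.H614.KL.tfae hb hl hY hp
  · exact Pool.Agent.H614.KL.pos2_prime hb hprime hω hne hcut hs

end Pool.Agent.Results.MP_e06174_ag.ImagesInDoubleRange
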