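import Pool.Agent.H301_CI.Main

/-!
# Kodaira dimension of the images of complete intersections, and of varieties with positive
canonical bundle which are cut out by equations of small degree

Let `V` be a projective variety of dimension `n` in the projective space of dimension `N`, with the
hyperplane class `H`, such that one of the following is true.

(1) `V` is a component of a smooth complete intersection of hypersurfaces of degrees `d_k`,
`1 ≤ d_k ≤ D`, `k < c`, with `Σ_k d_k = m + N + 1` (so that the canonical bundle is `O(m)`).

(2) `K_V - m H` is effective (on a resolution of `V`, which may be singular), and `V` is a component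
of the intersection of the hypersurfaces of degree at most `D` which contain it. (The varieties in
(1) have these properties; for them everything is proved here.)

Let `W` be any smooth projective variety with a dominant rational map `V ⇢ W` of degree `r`, or more
generally with a correspondence: a variety `Z` with generically finite maps to `V` and to `W`, the
latter of degree `r`, such that `Z → V × W` is birational onto its image. Nothing is assumed about
the ramification, and about `W`. The theorem: if `r ≤ m + 1`, or if `D < r ≤ 2 m + 1`, then
`p_g(W) > 0`, `κ(W) ≥ 0`, the canonical bundle of `W` is pseudo-effective, and `W` is not uniruled.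

In particular this holds for all `r ≤ 2 m + 1` if `D ≤ m + 1`: for smooth complete intersections
this is true if the sum of the `d_j - 1` over all `j ≠ k` is at least `n + 1` for all `k`, for
instance for two hypersurfaces of degrees at least `n + 2`; and for all `V` in (2) which are cut
out by quadrics, `m ≥ 1`.

Proof. (1) The residue forms on `V`, with coefficients of degree `m`, are regular at all prime
divisors: in homogeneous coordinates they are given by the determinant of a matrix with the rows
`x`, `D_j(x)`, `j = 1, …, n`, and `c` other rows which are dual to the gradients of the equations;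
it does not depend on the choice of these rows, and for the coordinates `y = x / x_i`, where `x_i`
has the smallest order at the divisor, one can choose them regular, because some maximal minor of
the Jacobian matrix is a unit. The traces of the forms are canonical forms of `W`. If `p_g(W) = 0`
then they vanish, the fibres satisfy the Cayley–Bacharach condition for the forms of degree `m`,
hence `r ≥ m + 2`, and, as `r ≤ 2 m + 1`, they are on lines. If `r > D` then these lines are
contained in all hypersurfaces of degree at most `D` through `V`. In (2) it follows that the lines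
are in `V`, but `V` is not uniruled. In (1), the vectors `x`, `D_j(x)` are polynomials of degree `1`
in the parameter of the line, so that their determinant with `c` constant rows has degree at most
`n + 1`; but it is divisible by the maximal minor of the Jacobian matrix, of degree
`Σ (d_k - 1) = m + n + 1 > n + 1`, since the complete intersection is smooth at all points of the
line, including the point at infinity.

The function-field language of the starting repository is used: `M` is the function field of `V`,
`K` that of `Z`, and `L` that of `W` (for a rational map `V ⇢ W`, `K = M`). A canonical form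
(`IsPluri 1`) on a variety of dimension `n` is a function of `n` rational vector fields; it is
regular at the prime divisor `P` (`Place`, `Divisorial`, `RegAt`) if its value on vector fields
which are regular at `P` is regular at `P`. `KodGe ℂ L n (fun _ => False) 0` says that `κ(W) ≥ 0`,
`Psef ℂ L n (fun _ => False)` that `K_W` is pseudo-effective (`Pool/Agent/W602/GT`),
`IsUniruled ℂ L n` that `W` is uniruled (`Pool/Agent/W619/PQ/Defs.lean`).
-/

set_option autoImplicit false
set_option linter.overlappingInstances false
set_option linter.unusedDecidableInType false
set_option linter.unusedFintypeInType false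

open FF MvPolynomial Pool.Agent.W602.GT
open Pool.Agent.W619.PQ (IsUniruled)

namespace Pool.Agent.Results.MP_e06174_ag.ImagesOfCompleteIntersections

/-- The hypersurfaces `F k = 0` in projective space meet transversally: at all common zeros, the
gradients of the forms `F k` are linearly independent. -/
def IsSmooth {κ : Type} {N : ℕ} (F : κ → MvPolynomial (Fin (N + 1)) ℂ) : Prop :=
  ∀ z : Fin (N + 1) → ℂ, z ≠ 0 → (∀ k, eval z (F k) = 0) →
    LinearIndependent ℂ fun (k : κ) (i : Fin (N + 1)) => eval z (pderiv i (F k))

section

variable {N : ℕ} {M : Type} [Field M] [Algebra ℂ M]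

/-- `x` is the generic point of a variety of dimension `n` in projective space, and `M` is its
function field; the homogeneous coordinates are normalised by `x 0 = 1`. -/
structure IsGenericPoint (n : ℕ) (x : Fin (N + 1) → M) : Prop where
  one : x 0 = 1
  gen : IntermediateField.adjoin ℂ (Set.range x) = ⊤
  dim : Algebra.trdeg ℂ M = n

/-- The variety with the generic point `x`, of dimension `n`, is a component of a smooth complete
intersection of hypersurfaces `F k = 0` of degrees `d k`, `1 ≤ d k ≤ D`, with
`Σ d k = m + N + 1`. -/
def IsCompleteIntersection (n m D : ℕ) (x : Fin (N + 1) → M) : Prop :=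
  ∃ (c : ℕ) (d : Fin c → ℕ) (F : Fin c → MvPolynomial (Fin (N + 1)) ℂ),
    N = n + c ∧ ∑ k, d k = m + N + 1 ∧ (∀ k, 1 ≤ d k ∧ d k ≤ D) ∧
    (∀ k, (F k).IsHomogeneous (d k)) ∧ (∀ k, aeval x (F k) = 0) ∧ IsSmooth F

/-- The variety with the generic point `x` is a component of the intersection of the hypersurfaces
of degree at most `D` which contain it: if `G(x) = 0` then, for some `H` with `H(x) ≠ 0`, `H G` is
in the radical of the ideal generated by the polynomials of degree at most `D` which vanish at
`x`. -/
def IsCutOut (D : ℕ) (x : Fin (N + 1) → M) : Prop :=
  ∀ G : MvPolynomial (Fin (N + 1)) ℂ, aeval x G = 0 →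
    ∃ H : MvPolynomial (Fin (N + 1)) ℂ, aeval x H ≠ 0 ∧ H * G ∈
      (Ideal.span {F : MvPolynomial (Fin (N + 1)) ℂ | F.totalDegree ≤ D ∧ aeval x F = 0}).radical

/-- `K_V - m H` is effective for the variety `V` of dimension `n` with the generic point `x`: there
is a canonical form `ω ≠ 0` such that `A(x) ω` is regular at all prime divisors, for all monomials
`A` of degree `m` in the homogeneous coordinates. -/
def CanonicalGe (n m : ℕ) (x : Fin (N + 1) → M) : Prop :=
  ∃ ω : (Fin n → Derivation ℂ M M) → M, IsPluri 1 ω ∧ (∃ D, ω D ≠ 0) ∧
    ∀ (f : Fin m → Fin (N + 1)) (P : Place ℂ M), Divisorial n P →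
      RegAt P fun D => (∏ k, x (f k)) * ω D

end

/-- The geometric genus is zero: the only canonical form which is regular at all prime divisors is
`0`. -/
def GenusZero (L : Type) [Field L] [Algebra ℂ L] (n : ℕ) : Prop :=
  ∀ ω : (Fin n → Derivation ℂ L L) → L, IsPluri 1 ω →
    (∀ P : Place ℂ L, Divisorial n P → RegAt P ω) → ∀ D, ω D = 0

/-- **Images of complete intersections.** Let `V` be a projective variety of dimension `n` with
function field `M` which is a component of a smooth complete intersection with the canonical bundle
`O(m)`, given by hypersurfaces of degrees at most `D`; or, more generally, such that `K_V - m H` is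
effective, and `V`, which may be singular, is a component of the intersection of the hypersurfaces
of degree at most `D` which contain it. Let `Z` be a variety with function field `K`, with generically finite dominant rational
maps to `V` and to the smooth projective variety `W` with function field `L`, and birational to its
image in `V × W` (for instance `Z = V`, with any dominant rational map `V ⇢ W` of finite degree). Let
`r` be the degree of `Z` over `W`. If `r ≤ m + 1`, or if `D < r ≤ 2 m + 1`, then `p_g(W) > 0`,
`κ(W) ≥ 0`, `K_W` is pseudo-effective and `W` is not uniruled. -/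
theorem result {n m D N : ℕ} {M : Type} [Field M] [Algebra ℂ M] {x : Fin (N + 1) → M}
    (hx : IsGenericPoint n x)
    (hV : IsCompleteIntersection n m D x ∨ (CanonicalGe n m x ∧ IsCutOut D x))
    (L K : Type) [Field L] [Field K] [Algebra ℂ L] [Algebra ℂ K] [Algebra L K] [Algebra M K]
    [IsScalarTower ℂ L K] [IsScalarTower ℂ M K] [FiniteDimensional L K] [FiniteDimensional M K]
    (hK : IntermediateField.adjoin L (Set.range fun j => algebraMap M K (x j)) = ⊤)
    (hr : Module.finrank L K ≤ 2 * m + 1)
    (hr' : Module.finrank L K ≤ m + 1 ∨ D < Module.finrank L K) :
    ¬ GenusZero L n ∧ KodGe ℂ L n (fun _ => False) 0 ∧ Psef ℂ L n (fun _ => False) ∧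
      ¬ IsUniruled ℂ L n := by
  classical
  have hessM : Algebra.EssFiniteType ℂ M := by
    rw [← IntermediateField.fg_top_iff]
    exact ⟨Finset.univ.image x, by
      rw [Finset.coe_image, Finset.coe_univ, Set.image_univ, hx.gen]⟩
  have hessMK : Algebra.EssFiniteType M K := inferInstance
  have hessK : Algebra.EssFiniteType ℂ K := Algebra.EssFiniteType.comp ℂ M K
  have hessL : Algebra.EssFiniteType ℂ L := Pool.Agent.TH466.QG.ess_below (K := K)
  have htK : Algebra.trdeg ℂ K = n := Pool.Agent.Y172.trdeg_up (K := M) hx.dim
  have hL : Algebra.trdeg ℂ L = n := Pool.Agent.Y184.NT.trdeg_below (K := K) htK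
  -- the geometric genus is not zero
  have hpg : ¬ GenusZero L n := by
    intro hpg
    suffices h : m + 2 ≤ Module.finrank L K ∧ Module.finrank L K ≤ D by omega
    rcases hV with ⟨c, d, F, hN, hm, hd, hF, hF0, hs⟩ | ⟨⟨ω, hω, hω0, hreg⟩, hcut⟩
    · obtain ⟨z, E, hz, hE⟩ := Pool.Agent.Y172.exists_crd (k := ℂ) (K := L) hL
      choose E' hE' using fun i => Pool.Agent.Y172.exists_lift (k := ℂ) (K := L) (L := K) hL (E i)
      have hEind : LinearIndependent K E' := Pool.Agent.Y184.NT.lift_ind hE hE'
      have hsum : m + (n + 1) = ∑ k, (d k - 1) := by
        have h4 : ∑ k, (d k - 1) + Fintype.card (Fin c) = ∑ k, d k := by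
          rw [← Finset.card_univ, Finset.card_eq_sum_ones, ← Finset.sum_add_distrib]
          exact Finset.sum_congr rfl fun k _ => Nat.sub_add_cancel (hd k).1
        rw [Fintype.card_fin] at h4
        omega
      have e : Fin c ⊕ Fin (n + 1) ≃ Fin (N + 1) := Fintype.equivOfCardEq (by
        rw [Fintype.card_sum, Fintype.card_fin, Fintype.card_fin, Fintype.card_fin, hN]
        omega)
      have hx0 : ∀ k, aeval (fun j => algebraMap M K (x j)) (F k) = 0 := by
        intro k
        have h7 : aeval (fun j => algebraMap M K (x j)) (F k) = algebraMap M K (aeval x (F k)) :=
          MvPolynomial.aeval_algebraMap_apply K x (F k)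
        rw [h7, hF0, map_zero]
      obtain ⟨h1, k, h2⟩ := Pool.Agent.H301_CI.images hL hpg hF hs hsum e
        (x := fun j => algebraMap M K (x j)) (j0 := 0) (by rw [hx.one, map_one]) hx0
        (fun D' hD' => Pool.Agent.H301_CI.der_zero_of hx.gen hx.dim D' hD') hK hE' hEind hr
      exact ⟨h1, h2.trans (hd k).2⟩
    · exact Pool.Agent.H301_CI.images_cut hL hx.dim hpg hx.one hx.gen hK hcut hω hω0 hreg hr
  -- the other properties
  have h1 : KodGe ℂ L n (fun _ => False) 0 := by
    by_contra h
    apply hpg
    intro ω hω hreg D
    by_contra hne
    refine h ⟨1, one_pos, fun _ => ω, fun _ => ⟨hω, fun P hP D' hD' => ?_, fun P hP _ =>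
      hreg P hP⟩, D, hne, ?_⟩
    · exact hreg P hP D' fun i => Pool.Agent.TH466.QG.derReg_of_log (hD' i)
    · exact algebraicIndependent_empty_type
  have h2 : Psef ℂ L n (fun _ => False) := psef_of_kodGe h1
  exact ⟨hpg, h1, h2, fun h => (Pool.Agent.W619.Y.uniruled_neg n hL h).1
    ((Pool.Agent.TH466.QG.psef_iff n).1 h2)⟩

end Pool.Agent.Results.MP_e06174_ag.ImagesOfCompleteIntersections
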