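import Pool.Agent.Helper320.PC.Main3

/-!
# Negative Kodaira dimension and uniruledness of the images of products of curves of large gonality

Let `V = C 1 × ... × C n` be any product of smooth projective curves over `ℂ`, and let `γ i` be at
most the gonality of `C i` (the smallest degree of a map of `C i` onto the line). Let `V ⇢ W` be any
dominant rational map of finite degree `r` onto a smooth projective variety; it need not be a quotient
by a group, and nothing is assumed on its ramification.

Let `d i ≤ r` be the degree over `W` of the image of `V` in `W × C i`, that is the number of points of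
`C i` which correspond to a general point of `W`. Let `I` be a set of factors with `d i < γ i` for
`i ∈ I` (for example `I = ∅`), and let `e ≤ r` be the degree of `V` over the image `W'` of `V` in
`W × ∏ (i ∈ I) C i` (so `e = r` for `I = ∅`). Suppose that at most one factor is not in `I`, or
`e + 3 ≤ γ i + γ j` for all `i ≠ j` not in `I`, and `e + 1 ≤ 2 γ i` for all `i` not in `I`.

Then these are equivalent: `p_g(W) = 0`; `κ(W) = -∞`; `K_W` is not pseudo-effective; `W` is uniruled.
Moreover, if `p_g(W) = 0` and no `C i`, `i ∉ I`, is rational, then there is a factor `i` not in `I` with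
`γ i ≤ e` such that the projections of `V` to all other factors `C j`, `j ≠ i`, factor through `W'`
(and `W'` is a family of rational curves over the product of these `C j`).

For example: if all curves have gonality at least `γ` then the equivalences hold for all images of `V`
of degree at most `2 γ - 3`; if all curves but one have gonality greater than `d i` then they hold for
all degrees, and all curves as the last factor; and `p_g(W) > 0` if `d i < γ i` for all `i`.

Proof. The conjugates over the function field `L` of `W` of the generic point of `V` are `r` points
`P σ` with coordinates `P σ i` in `C i`. If `p_g(W) = 0` then the traces of all products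
`c 1 ... c n` of regular differentials vanish; this is a linear relation with nonzero coefficients
between the evaluations of products of regular differentials at the points `P σ`. By the theorem of
Riemann-Roch the regular differentials of `C i` separate a point from `γ i - 2` other points; this
holds over all extensions of the field of constants, by specialisation. If the conditions hold then a
combinatorial argument (assignments of the other points to the coordinates which are used to separate
them from a given point) shows that the relation is only possible if the points which have the same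
coordinates for `i ∈ I` as the generic point differ in one coordinate `i` only. Then `W'` has a
fibration over the product of the other factors. All regular differentials of its geometric generic
fibre come from regular differentials of `C i`, which have trace zero; so this curve is rational.

The function-field language of the starting repository is used: a canonical form (`IsPluri 1`) on a
variety of dimension `n` is a function of `n` rational vector fields; it is regular at the prime
divisor `P` (`Place`, `Divisorial`, `RegAt`) if its value on vector fields which are regular at `P` is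
regular at `P`. `KodGe ℂ L n (fun _ => False) 0` says that `κ(W) ≥ 0`, `Psef ℂ L n (fun _ => False)`
that `K_W` is pseudo-effective (`Pool/Agent/W602/GT`), `IsUniruled ℂ L n` that `W` is uniruled
(`Pool/Agent/W619/PQ/Defs.lean`).
-/

set_option autoImplicit false
set_option linter.overlappingInstances false

open FF Pool.Agent.W602.GT
open Pool.Agent.W619.PQ (IsUniruled)

namespace Pool.Agent.Results.MP_e06174_ag.ImagesOfCurveProducts

/-- The geometric genus is zero: the only canonical form which is regular at all prime divisors is
`0`. -/
def GenusZero (L : Type) [Field L] [Algebra ℂ L] (n : ℕ) : Prop :=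
  ∀ ω : (Fin n → Derivation ℂ L L) → L, IsPluri 1 ω →
    (∀ P : Place ℂ L, Divisorial n P → RegAt P ω) → ∀ D, ω D = 0

/-- `F` is the function field of a curve. -/
def IsCurveField (F : Type) [Field F] [Algebra ℂ F] : Prop :=
  Algebra.EssFiniteType ℂ F ∧ Algebra.trdeg ℂ F = 1

/-- The gonality of the curve with the function field `F` is at least `γ`: all nonconstant functions
have degree at least `γ`. -/
def GonalityGe (F : Type) [Field F] [Algebra ℂ F] (γ : ℕ) : Prop :=
  ∀ t : F, Transcendental ℂ t → γ ≤ Module.finrank (IntermediateField.adjoin ℂ {t}) F

section

variable {K : Type} [Field K] [Algebra ℂ K] (L : Type) [Field L] [Algebra L K] {n : ℕ}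

/-- The number `d` of the points of the curve with the function field `F` which correspond to a
general point of `W`: the degree over `L` of the compositum of `L` and `F`. -/
noncomputable def factorDegree (F : IntermediateField ℂ K) : ℕ :=
  Module.finrank L (IntermediateField.adjoin L (F : Set K))

/-- The function field of the image `W'` of `V` in the product of `W` and the curves with the
function fields `F i`, `i ∈ I`. -/
def joint (F : Fin n → IntermediateField ℂ K) (I : Finset (Fin n)) : IntermediateField L K :=
  IntermediateField.adjoin L (⋃ i ∈ I, (F i : Set K))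

/-- The degree `e` of `V` over `W'`. -/
noncomputable def jointDegree (F : Fin n → IntermediateField ℂ K) (I : Finset (Fin n)) : ℕ :=
  Module.finrank (joint L F I) K

end

/-- **Images of products of curves of large gonality.** Let `V` be the product of `n ≥ 1` curves with
the function fields `F i`, which are subfields of the function field `K` of `V`, of gonality at least
`γ i`, and let `V ⇢ W` be a dominant rational map of finite degree to a smooth projective variety with
function field `L`. Let `I` be a set of factors with `d i < γ i` for `i ∈ I`, such that for the degree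
`e` of `V` over the image `W'` of `V` in `W × ∏ (i ∈ I) C i` the following holds: `e + 3 ≤ γ i + γ j`
for all `i ≠ j` not in `I`, and `e + 1 ≤ 2 γ i` for all `i` not in `I`, or `I` contains all factors but
at most one. Then `p_g(W) = 0` if and only if `κ(W) = -∞`, if and only if `K_W` is not
pseudo-effective, if and only if `W` is uniruled. If moreover `γ i ≥ 2` for `i` not in `I` then
`p_g(W) = 0` implies that there is `i` not in `I` with `γ i ≤ e` such that the function fields of all
other factors are contained in that of `W'`. -/
theorem result {n : ℕ} (hn : 1 ≤ n) {K : Type} [Field K] [Algebra ℂ K]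
    (hK : Algebra.trdeg ℂ K = n) (F : Fin n → IntermediateField ℂ K)
    (hF : ∀ i, IsCurveField (F i)) (hsup : ⨆ i, F i = ⊤)
    (γ : Fin n → ℕ) (hγ : ∀ i, GonalityGe (F i) (γ i))
    (L : Type) [Field L] [Algebra ℂ L] [Algebra L K] [IsScalarTower ℂ L K]
    [FiniteDimensional L K] (I : Finset (Fin n)) (hI : ∀ i ∈ I, factorDegree L (F i) < γ i)
    (h1 : ∀ i j, i ∉ I → j ∉ I → i ≠ j → jointDegree L F I + 3 ≤ γ i + γ j)
    (h2 : (∀ i j, i ∉ I → j ∉ I → i = j) ∨ ∀ i, i ∉ I → jointDegree L F I + 1 ≤ 2 * γ i) :
    [GenusZero L n, ¬ KodGe ℂ L n (fun _ => False) 0, ¬ Psef ℂ L n (fun _ => False),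
      IsUniruled ℂ L n].TFAE ∧
    ((∀ i, i ∉ I → 2 ≤ γ i) → GenusZero L n → ∃ i, i ∉ I ∧ γ i ≤ jointDegree L F I ∧
      ∀ j, j ≠ i → ∀ z ∈ F j, z ∈ joint L F I) := by
  classical
  obtain ⟨m, rfl⟩ : ∃ m, n = m + 1 := ⟨n - 1, by omega⟩
  have hFF : ∀ i, IsFF ℂ (F i) := fun i => ⟨(hF i).1, (hF i).2⟩
  have hess : Algebra.EssFiniteType ℂ K := Pool.Agent.Helper320.PC.ess_sup F hsup
  have hessL : Algebra.EssFiniteType ℂ L := Pool.Agent.TH466.QG.ess_below (K := K)
  have hL : Algebra.trdeg ℂ L = (m + 1 : ℕ) := Pool.Agent.Y184.NT.trdeg_below (K := K) hK
  have hmain : (∀ i, i ∉ I → 2 ≤ γ i) → GenusZero L (m + 1) → IsUniruled ℂ L (m + 1) ∧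
      ∃ i, i ∉ I ∧ γ i ≤ jointDegree L F I ∧ ∀ j, j ≠ i → ∀ z ∈ F j, z ∈ joint L F I :=
    fun hJ hg => Pool.Agent.Helper320.PC.uniruled_main Pool.Agent.Helper320.PC.t_CORE2'
      Pool.Agent.Helper320.PC.t_SPF' hK F hsup L I γ hγ (joint L F I) rfl hI hJ h1 h2 hg
  refine ⟨?_, fun hJ hg => (hmain hJ hg).2⟩
  tfae_have 1 → 4 := by
    intro hg
    by_cases hrat : ∃ i, ∃ t : F i, IntermediateField.adjoin ℂ {t} = ⊤
    · obtain ⟨i, t, ht⟩ := hrat
      exact Pool.Agent.Helper320.PC.uniruled_of_rational hK F hsup L i t ht
    push Not at hrat
    have hrat' : ∀ i, ¬ ∃ t : F i, IntermediateField.adjoin ℂ {t} = ⊤ := fun i => by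
      push Not
      exact hrat i
    exact (Pool.Agent.Helper320.PC.uniruled_main Pool.Agent.Helper320.PC.t_CORE2'
      Pool.Agent.Helper320.PC.t_SPF' hK F hsup L I (fun i => max (γ i) 2)
      (fun i => Pool.Agent.Helper320.PC.gonGe_max (hrat' i) (hγ i)) (joint L F I) rfl
      (fun i hi => lt_of_lt_of_le (hI i hi) (le_max_left _ _)) (fun i _ => le_max_right _ _)
      (fun i j hi hj hij => (h1 i j hi hj hij).trans
        (add_le_add (le_max_left _ _) (le_max_left _ _)))
      (h2.imp id fun h i hi => (h i hi).trans
        (Nat.mul_le_mul_left 2 (le_max_left _ _))) hg).1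
  tfae_have 4 → 3 := fun h h' =>
    (Pool.Agent.W619.Y.uniruled_neg (m + 1) hL h).1 ((Pool.Agent.TH466.QG.psef_iff (m + 1)).1 h')
  tfae_have 3 → 2 := fun h h' => h (psef_of_kodGe h')
  tfae_have 2 → 1 := by
    intro h ω hω hreg D
    by_contra hne
    refine h ⟨1, one_pos, fun _ => ω, fun _ => ⟨hω, fun P hP D' hD' => ?_,
      fun P hP _ => hreg P hP⟩, D, hne, ?_⟩
    · exact hreg P hP D' fun i => Pool.Agent.TH466.QG.derReg_of_log (hD' i)
    · exact algebraicIndependent_empty_type
  tfae_finish

end Pool.Agent.Results.MP_e06174_ag.ImagesOfCurveProducts
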